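import Pool.Agent.U742.ET.Main

/-!
Brody hyperbolicity and maps from complex tori.
-/

set_option autoImplicit false

open Filter Topology Set Metric

namespace Pool.Agent.U742.ET

open FF Pool.Agent.W602.GT Pool.Agent.Y190.BV Pool.Agent.Y216.SV
open Pool.Agent.TH143.HE (IsPtP RatCurvesIn NonConst)
open Pool.Agent.TH143.EL (InV TorusMapsIn Rep)
open Pool.Agent.U647.LT (isPtP_span el_hol)
open Pool.Agent.U647.IS (onX_iff kob_of_brody brody_of_kob torusRigid_of_brody)
open Pool.Agent.N154.TB (CurveIn IsConst BrodyHyp)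
open Pool.Agent.N154.GG (kobayashi)
open Pool.Agent.TH182.TC (EllipticRigid TorusRigid Holo OnX)
open scoped LinearAlgebra.Projectivization

variable {N n m w : ℕ} {ι : Type}

/-- The Kobayashi pseudodistance of the projective set with the cone `X` is a distance. -/
def KobayashiHyperbolic (X : Set (Fin (N + 1) → ℂ)) : Prop :=
  ∀ p q : ℙ ℂ (Fin (N + 1) → ℂ), p.rep ∈ X → q.rep ∈ X → p ≠ q → 0 < kobayashi X p q

theorem inV_iff_cone {F : ι → MvPolynomial (Fin (N + 1)) ℂ} (hF : ∀ e, IsForm (F e))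
    (p : ℙ ℂ (Fin (N + 1) → ℂ)) : InV (Ideal.span (Set.range F)) p ↔ p.rep ∈ Cone F := by
  rw [← isPt_iff, isPtP_span _ hF]
  unfold Pool.Agent.W602.GT.Cone Pool.Agent.W602.GT.val
  constructor
  · intro h
    exact ⟨p.rep_nonzero, fun i => by rw [MvPolynomial.aeval_eq_eval]; exact h i⟩
  · intro h i
    have h1 := h.2 i
    rw [MvPolynomial.aeval_eq_eval] at h1
    exact h1

theorem not_inV_one (p : ℙ ℂ (Fin (N + 1) → ℂ)) :
    ¬ InV (Ideal.span (Set.range fun _ : Unit => (1 : MvPolynomial (Fin (N + 1)) ℂ))) p := by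
  rw [← isPt_iff, isPtP_span _ (fun _ => ⟨0, MvPolynomial.isHomogeneous_one _ _⟩)]
  intro h
  have h1 := h ()
  simp at h1

theorem torus_of_elliptic {F : ι → MvPolynomial (Fin (N + 1)) ℂ} (hF : ∀ e, IsForm (F e))
    (hT : EllipticRigid F) : TorusMapsIn (Ideal.span (Set.range F))
      (Ideal.span (Set.range fun _ : Unit => 1)) := by
  intro ω₁ ω₂ hind f hf h1 h2 hI hnc
  exfalso
  obtain ⟨z, w, hzw⟩ := hnc
  apply hzw
  refine hT ω₁ ω₂ hind f (fun a => ?_) (fun z => ?_) h1 h2 z w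
  · obtain ⟨g, hg, hgf⟩ := hf a
    refine ⟨fun z j => g j z, analyticAt_pi_iff.2 hg, ?_⟩
    filter_upwards [hgf] with z hz
    exact hz
  · rw [onX_iff]
    exact (inV_iff_cone hF _).1 (hI z)

theorem brody_of_entire {F : ι → MvPolynomial (Fin (N + 1)) ℂ} (hF : ∀ e, IsForm (F e))
    (h : EntireIn (Ideal.span (Set.range F)) (Ideal.span (Set.range fun _ : Unit => 1))) :
    BrodyHyp (Cone F) := by
  intro f hf
  by_contra hcon
  have hnc : ∃ z w, f z ≠ f w := by
    by_contra h1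
    push Not at h1
    exact hcon h1
  exact not_inV_one _ (h f (el_hol hf.1) (fun z => (inV_iff_cone hF _).2 (hf.2 z)) hnc 0)

/-- **Kobayashi and Brody hyperbolicity, and maps from complex tori.** -/
theorem hyp_tfae (hm : 2 ≤ m) (hN : 4 * n + (n + 1) ^ 2 < 2 * (N + 1))
    {a : Fin (N + 1) → ℂ} (ha : Function.Injective a) {F : ι → MvPolynomial (Fin (N + 1)) ℂ}
    (hF : ∀ e, IsForm (F e)) (hV : Cone F ⊆ PowVal a n m) (hB : NoBig a n m F) :
    [KobayashiHyperbolic (Cone F), BrodyHyp (Cone F), TorusRigid F, EllipticRigid F].TFAE := by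
  tfae_have 1 → 2 := brody_of_kob
  tfae_have 2 → 1 := fun hB p q hp hq hpq => kob_of_brody hF hB hp hq hpq
  tfae_have 2 → 3 := torusRigid_of_brody
  tfae_have 3 → 4 := fun h => h.elliptic
  tfae_have 4 → 2 := fun h => brody_of_entire hF
    (((main hm hN ha hF hV hB _).out 0 1).2 (torus_of_elliptic hF h))
  tfae_finish

end Pool.Agent.U742.ET
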