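import Pool.Agent.Y216.SV.Hec2
import Pool.Agent.Y216.SV.Rc2

/-!
Entire curves in the power value varieties, in homogeneous coordinates which may have common zeros:
the structure of the Zariski closure.
-/

set_option autoImplicit false

open Filter Topology Set Metric

namespace Pool.Agent.U742.ET

open FF Pool.Agent.W603.LV Pool.Agent.W603.BP Pool.Agent.W601.PH Pool.Agent.Y190.BV
  Pool.Agent.W602.GT Pool.Agent.Y190.AN Pool.Agent.Y190.QP Pool.Agent.H159R3.GGLLog
  Pool.Agent.H159R3.NV Pool.Agent.Y216.SV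

variable {N n m w : ℕ}

/-- **The embedding of the function field in the field of meromorphic functions.** -/
theorem embed {K : Type} [Field K] [Algebra ℂ K]
    {y : Fin (N + 1) → K} (hy0 : y ≠ 0) (hgen : coords ℂ y = ⊤) {f : ℂ → Fin (N + 1) → ℂ}
    (hfi : ∀ i, Differentiable ℂ (fun z => f z i))
    (hrel : ∀ G : MvPolynomial (Fin (N + 1)) ℂ, IsForm G →
      (val y G = 0 ↔ ∀ z, MvPolynomial.eval (f z) G = 0)) :
    ∃ φ : K →ₐ[ℂ] MK (exD 1 one_pos), ∀ x : K, φ x ∈ Per 1 one_pos := by
  classical
  have hgd : ∀ i, Differentiable ℂ (fun z => f (Complex.exp z) i) := fun i =>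
    (hfi i).comp Complex.differentiable_exp
  have hM : ∀ i, MeromorphicOn (fun z => f (Complex.exp z) i) (exD 1 one_pos).U := fun i z _ =>
    ((hgd i).analyticAt z).meromorphicAt
  set Y : Fin (N + 1) → MK (exD 1 one_pos) := fun i => cl _ (hM i) with hY
  have hYG : ∀ G : MvPolynomial (Fin (N + 1)) ℂ, IsForm G → (val y G = 0 ↔ val Y G = 0) := by
    intro G hG
    rw [val_cl G hM (eval_mero G hM), cl_eq_zero]
    constructor
    · intro h0 z _
      refine Eventually.of_forall fun w => ?_
      exact (hrel G hG).1 h0 (Complex.exp w)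
    · intro h0
      refine (hrel G hG).2 fun v => ?_
      have h1 : Differentiable ℂ (fun z => MvPolynomial.eval (f z) G) := by
        simp only [MvPolynomial.eval_eq']
        refine Differentiable.fun_sum fun α _ => ?_
        refine (differentiable_const _).mul ?_
        refine Differentiable.fun_finsetProd fun j _ => ?_
        exact (hfi j).pow _
      have h2 : ∀ v : ℂ, v ≠ 0 → MvPolynomial.eval (f v) G = 0 := by
        intro v hv
        obtain ⟨z, hz, rfl⟩ := exp_surj hv
        have h3 : AnalyticAt ℂ (fun z => MvPolynomial.eval (fun i => f (Complex.exp z) i) G) z :=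
          (h1.comp Complex.differentiable_exp).analyticAt z
        exact (h3.frequently_zero_iff_eventually_zero.1 (h0 z hz).frequently).self_of_nhds
      by_cases hv : v = 0
      · have h3 : (fun z => MvPolynomial.eval (f z) G) v = 0 := by
          have h4 : AnalyticAt ℂ (fun z => MvPolynomial.eval (f z) G) v := h1.analyticAt v
          refine (h4.frequently_zero_iff_eventually_zero.1 (Filter.Eventually.frequently
            ?_)).self_of_nhds
          filter_upwards [self_mem_nhdsWithin] with z hz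
          apply h2
          rw [← hv]
          exact hz
        exact h3
      · exact h2 v hv
  obtain ⟨j0, hj0⟩ := Function.ne_iff.1 hy0
  have hj0' : y j0 ≠ 0 := hj0
  have hX : IsForm (MvPolynomial.X j0 : MvPolynomial (Fin (N + 1)) ℂ) :=
    ⟨1, MvPolynomial.isHomogeneous_X _ _⟩
  have hvX : ∀ {M : Type} [Field M] [Algebra ℂ M] (v : Fin (N + 1) → M),
      val v (MvPolynomial.X j0 : MvPolynomial (Fin (N + 1)) ℂ) = v j0 := by
    intro M _ _ v
    unfold val
    rw [MvPolynomial.aeval_X]
  have hY0 : Y j0 ≠ 0 := by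
    intro h0
    apply hj0'
    have h1 := (hYG _ hX).2 (by rw [hvX, h0])
    rwa [hvX] at h1
  obtain ⟨φ, hφ⟩ := exists_embedding hj0' hY0 hgen hYG
  refine ⟨φ, ?_⟩
  have h1 : coords ℂ y ≤ (Per 1 one_pos).comap φ := by
    unfold coords
    rw [IntermediateField.adjoin_le_iff]
    rintro _ ⟨i, j, hj, rfl⟩
    change φ (y i / y j) ∈ Per 1 one_pos
    have h2 : y i / y j = (y i / y j0) / (y j / y j0) := by
      rw [div_div_div_cancel_right₀ hj0']
    have hYp : ∀ i, Y i ∈ Per 1 one_pos := fun i =>
      ⟨_, hM i, rfl, fun z => by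
        have h3 : Complex.exp (z + TT) = Complex.exp z := by
          change Complex.exp (z + 2 * Real.pi * Complex.I) = Complex.exp z
          exact Complex.exp_periodic z
        simp only [h3]⟩
    rw [h2, map_div₀, hφ, hφ]
    exact div_mem (div_mem (hYp i) (hYp j0)) (div_mem (hYp j) (hYp j0))
  intro x
  have h2 : x ∈ coords ℂ y := by
    rw [hgen]
    exact IntermediateField.mem_top
  exact h1 h2

/-- **The closures of entire curves lie in linear subspaces.** -/
theorem concl_of_entire (hm : 2 ≤ m) (hN : 4 * n + (n + 1) ^ 2 < 2 * (N + 1))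
    {a : Fin (N + 1) → ℂ} (ha : Function.Injective a) {K : Type} [Field K]
    [Algebra ℂ K] {y : Fin (N + 1) → K} (hy : SubVar (buchi a n m) K w y)
    {f : ℂ → Fin (N + 1) → ℂ} (hfi : ∀ i, Differentiable ℂ (fun z => f z i))
    (hrel : ∀ G : MvPolynomial (Fin (N + 1)) ℂ, IsForm G →
      (val y G = 0 ↔ ∀ z, MvPolynomial.eval (f z) G = 0)) :
    (∃ e, e * m ≤ n ∧ w ≤ e ∧ InLinearSpace ℂ a n m e y) ∧
      (n < (w + 1) * m → Pool.Agent.TH710.SP.IsLinear ℂ y) := by
  obtain ⟨φ, hφ⟩ := embed hy.ne hy.gen hfi hrel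
  obtain ⟨q, c, G0, ζ, hq, hc, -, hdeg, hζ, hyz⟩ :=
    hull_core hm hN ha (fun n' N' a' z G hN' ha' hG hd hz hmul j j0 hj0 =>
    const_of_embed hm φ hφ hN' ha' hG hd hz hmul j j0 hj0) hy.ne hy.mem
  exact concl_of_str hy (fun _ _ => Iff.rfl) hq hc hdeg hζ hyz

end Pool.Agent.U742.ET
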