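import Pool.Agent.U742.ET.Emb
import Pool.Agent.U647.IS.Tor
import Pool.Agent.Y216.SV.Pd

/-!
Entire curves and maps from complex tori to the closed subvarieties of the power value varieties,
polynomials of any degree.
-/

set_option autoImplicit false

open Filter Topology Set Metric

namespace Pool.Agent.U742.ET

open FF Pool.Agent.W602.GT Pool.Agent.Y190.BV Pool.Agent.Y216.SV

open Pool.Agent.TH143.HE (IsPtP RatCurvesIn NonConst)
open Pool.Agent.TH143.EL (InV TorusMapsIn Rep HolMap inV_iff inV_of_punct rep_rep)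
open Pool.Agent.Y719.LC (cI EllIn)
open Pool.Agent.U647.LT (isPtP_span exists_coords curve_low DimLeOne diff_eval inV_span_iff)
open Pool.Agent.U647.IS (alg_of_torus inV_cI_rep gg_hol)
open Pool.Agent.TH710.SP (IsLinear)
open scoped LinearAlgebra.Projectivization

variable {N n m w : ℕ} {ι : Type}

/-- Every nonconstant holomorphic map from the complex plane to the projective algebraic set of `I`
has its image in the projective algebraic set of `I'`. -/
def EntireIn (I I' : Ideal (MvPolynomial (Fin (N + 1)) ℂ)) : Prop :=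
  ∀ f : ℂ → ℙ ℂ (Fin (N + 1) → ℂ), HolMap f → (∀ z, InV I (f z)) → (∃ z w, f z ≠ f w) →
    ∀ z, InV I' (f z)

/-- The closed subvarieties of `{F = 0}` of dimension `w ≥ 2` with `(w + 1) m ≤ n` which are
contained in a linear subspace that is contained in the variety of the vectors whose `m`-th powers
are the values of a polynomial of degree at most `n` at the `a i` are linear. -/
def NoBig (a : Fin (N + 1) → ℂ) (n m : ℕ) (F : ι → MvPolynomial (Fin (N + 1)) ℂ) : Prop :=
  ∀ (E : Type) [Field E] [Algebra ℂ E] (w : ℕ) (v : Fin (N + 1) → E), SubVar F E w v → 2 ≤ w →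
    (w + 1) * m ≤ n → (∃ e, e * m ≤ n ∧ InLinearSpace ℂ a n m e v) → IsLinear ℂ v

theorem noBig_of_lt {a : Fin (N + 1) → ℂ} {F : ι → MvPolynomial (Fin (N + 1)) ℂ}
    (h : n < 3 * m) : NoBig a n m F := by
  intro E _ _ w v _ hw hwm _
  have h1 : 3 * m ≤ (w + 1) * m := Nat.mul_le_mul_right m (by omega)
  omega

/-- linear subspaces are unions of lines -/
theorem lines {I I' : Ideal (MvPolynomial (Fin (N + 1)) ℂ)} (hR : RatCurvesIn (RingHom.id ℂ) I I')
    {E : Type} [Field E] [Algebra ℂ E] {v : Fin (N + 1) → E} (hv0 : v ≠ 0) (hgen : coords ℂ v = ⊤)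
    (hdim : Algebra.trdeg ℂ E ≠ (0 : ℕ)) (hl : IsLinear ℂ v)
    (hI : ∀ x ∈ VarPts ℂ v, IsPtP (RingHom.id ℂ) I x) {x : Fin (N + 1) → ℂ}
    (hx : x ∈ VarPts ℂ v) : IsPtP (RingHom.id ℂ) I' x := by
  classical
  obtain ⟨i, j, hij⟩ := sep_point hgen hdim hx.1
  obtain ⟨x', hx', hne⟩ : ∃ x' ∈ VarPts ℂ v, val x' (relXY x i j) ≠ 0 := by
    by_contra hcon
    push Not at hcon
    apply hij
    refine val_of_cone (U := ∅) (F := fun e : {G : MvPolynomial (Fin (N + 1)) ℂ //
      IsForm G ∧ val v G = 0} => e.1) hv0 (fun j hj => absurd hj (Set.notMem_empty j))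
      (fun e => e.2.2) ?_
    rintro y ⟨hy0, -, hy⟩
    exact hcon y ⟨hy0, fun G hG h0 => hy ⟨G, hG, h0⟩⟩
  have hwedge : x' i * x j ≠ x' j * x i := by
    intro h
    apply hne
    rw [val_relXY]
    simp only [Algebra.algebraMap_self, RingHom.id_apply]
    linear_combination h
  have hli : ∀ c c' : ℂ, c ≠ 0 → c • x + c' • x' ≠ 0 := by
    intro c c' hc h0
    have h1 := congrFun h0 i
    have h2 := congrFun h0 j
    simp only [Pi.add_apply, Pi.smul_apply, smul_eq_mul, Pi.zero_apply] at h1 h2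
    by_cases hc' : c' = 0
    · rw [hc', zero_mul, add_zero] at h1 h2
      have h3 : x i = 0 := (mul_eq_zero.1 h1).resolve_left hc
      have h4 : x j = 0 := (mul_eq_zero.1 h2).resolve_left hc
      apply hwedge
      rw [h3, h4, mul_zero, mul_zero]
    · apply hwedge
      have h3 : c' * (x' i * x j - x' j * x i) = 0 := by linear_combination x j * h1 - x i * h2
      exact sub_eq_zero.1 ((mul_eq_zero.1 h3).resolve_left hc')
  let p : Fin (N + 1) → Polynomial ℂ := fun l =>
    Polynomial.C (x l) + Polynomial.C (x' l) * Polynomial.X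
  have hp : ∀ u, (fun l => (p l).eval u) = (1 : ℂ) • x + u • x' := by
    intro u
    funext l
    simp only [p, Polynomial.eval_add, Polynomial.eval_C, Polynomial.eval_mul, Polynomial.eval_X,
      Pi.add_apply, Pi.smul_apply, smul_eq_mul, one_mul]
    ring
  have h1 := hR p (fun u => by
    rw [hp]
    exact hI _ (hl x hx x' hx' 1 u (hli 1 u one_ne_zero))) ⟨i, j, 1, 0, by
      simp only [p, Polynomial.eval_add, Polynomial.eval_C, Polynomial.eval_mul, Polynomial.eval_X]
      intro h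
      apply hwedge
      linear_combination h⟩ 0
  rw [hp] at h1
  simpa using h1

theorem isPt_iff {I : Ideal (MvPolynomial (Fin (N + 1)) ℂ)} (p : ℙ ℂ (Fin (N + 1) → ℂ)) :
    IsPtP (RingHom.id ℂ) I p.rep ↔ InV I p := by
  unfold IsPtP InV
  rfl

/-- **Tori and algebraic curves.** -/
theorem alg_of_tori {I I' : Ideal (MvPolynomial (Fin (N + 1)) ℂ)} (hT : TorusMapsIn I I') :
    RatCurvesIn (RingHom.id ℂ) I I' ∧ EllIn (RingHom.id ℂ) I I' := by
  have hcI : ∀ (J : Ideal (MvPolynomial (Fin (N + 1)) ℂ)) (p : ℙ ℂ (Fin (N + 1) → ℂ)),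
      InV (cI (RingHom.id ℂ) J) p ↔ InV J p := fun J p => by
    rw [inV_cI_rep, isPt_iff]
  have hT' : TorusMapsIn (cI (RingHom.id ℂ) I) (cI (RingHom.id ℂ) I') := by
    intro ω₁ ω₂ hind f hf h1 h2 hI hnc z
    rw [hcI]
    exact hT ω₁ ω₂ hind f hf h1 h2 (fun z => (hcI _ _).1 (hI z)) hnc z
  exact alg_of_torus hT'

/-- **Entire curves and algebraic curves.** -/
theorem entire_of_alg (hm : 2 ≤ m) (hN : 4 * n + (n + 1) ^ 2 < 2 * (N + 1))
    {a : Fin (N + 1) → ℂ} (ha : Function.Injective a) {F : ι → MvPolynomial (Fin (N + 1)) ℂ}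
    (hF : ∀ e, IsForm (F e)) (hV : Cone F ⊆ PowVal a n m) (hB : NoBig a n m F)
    {I' : Ideal (MvPolynomial (Fin (N + 1)) ℂ)}
    (hR : RatCurvesIn (RingHom.id ℂ) (Ideal.span (Set.range F)) I')
    (hE : EllIn (RingHom.id ℂ) (Ideal.span (Set.range F)) I') :
    EntireIn (Ideal.span (Set.range F)) I' := by
  classical
  have hn : n ≤ N := by nlinarith
  set I := Ideal.span (Set.range F) with hIdef
  intro f hf hI hnc z
  have hgg := gg_hol hf
  obtain ⟨F0, hFi, hFne, hFf⟩ := exists_coords hgg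
  -- values
  have hvale : ∀ (t : ℂ) (G : MvPolynomial (Fin (N + 1)) ℂ), val (f t).rep G =
      MvPolynomial.eval (f t).rep G := by
    intro t G
    unfold Pool.Agent.W602.GT.val
    rw [MvPolynomial.aeval_eq_eval]
  have hev : ∀ G : MvPolynomial (Fin (N + 1)) ℂ, IsForm G →
      ((∀ t, MvPolynomial.eval (F0 t) G = 0) ↔ ∀ t, val (f t).rep G = 0) := by
    intro G hG
    constructor
    · intro h t
      rw [hvale, ← inV_span_iff hG (rep_rep (f t))]
      apply inV_of_punct hf
      filter_upwards [hFne t] with z hz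
      rw [inV_span_iff hG (hFf z hz)]
      exact h z
    · intro h t
      have h1 : ∀ᶠ z in 𝓝[≠] t, MvPolynomial.eval (F0 z) G = 0 := by
        filter_upwards [hFne t] with z hz
        rw [← inV_span_iff hG (hFf z hz), inV_span_iff hG (rep_rep (f z)), ← hvale]
        exact h z
      have h2 : Tendsto (fun z => MvPolynomial.eval (F0 z) G) (𝓝[≠] t)
          (𝓝 (MvPolynomial.eval (F0 t) G)) :=
        ((diff_eval hFi G).continuous.tendsto t).mono_left nhdsWithin_le_nhds
      exact tendsto_nhds_unique h2 (tendsto_const_nhds.congr' (h1.mono fun z hz => hz.symm))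
  obtain ⟨z1, hz1⟩ := (hFne 0).exists
  obtain ⟨j0, hj0⟩ := Function.ne_iff.1 hz1
  obtain ⟨K1, i1, i2, w1, y1, hy0, hgen, hdim, hrel, -⟩ :=
    Pool.Agent.TH143.GT.exists_closure F0 isPreconnected_univ
      (fun j z _ => (hFi j).analyticAt z) ⟨z1, Set.mem_univ _, hj0⟩
  have hrel' : ∀ G : MvPolynomial (Fin (N + 1)) ℂ, IsForm G →
      (val y1 G = 0 ↔ ∀ z, MvPolynomial.eval (F0 z) G = 0) := by
    intro G hG
    rw [hrel G hG]
    exact ⟨fun h z => h z (Set.mem_univ _), fun h z _ => h z⟩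
  have hyF : ∀ e, val y1 (F e) = 0 := fun e => (hrel' _ (hF e)).2 ((hev _ (hF e)).2 fun t => by
    rw [hvale]
    exact hI t (F e) (Ideal.subset_span ⟨e, rfl⟩) (hF e))
  have hsv : SubVar F K1 w1 y1 := ⟨hy0, hyF, hgen, hdim⟩
  have hsb : SubVar (buchi a n m) K1 w1 y1 := ⟨hy0, fun l => sub_ext (by
    rw [cone_buchi ha hn]
    exact hV) hy0 hyF l, hgen, hdim⟩
  rcases Nat.lt_or_ge w1 2 with hw | hw
  · -- curves
    let Q : {G : MvPolynomial (Fin (N + 1)) ℂ // IsForm G ∧ val y1 G = 0} →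
      MvPolynomial (Fin (N + 1)) ℂ := fun e => e.1
    have hQd : DimLeOne Q := by
      intro E _ _ w v hv
      by_contra hcon
      push Not at hcon
      have hsp : ∀ G : MvPolynomial (Fin (N + 1)) ℂ, IsForm G → val y1 G = 0 → val v G = 0 :=
        fun G hG h0 => hv.mem ⟨G, hG, h0⟩
      have hiff : ∀ G : MvPolynomial (Fin (N + 1)) ℂ, IsForm G → (val v G = 0 ↔ val y1 G = 0) :=
        fun G hG => ⟨fun h0 => Pool.Agent.N155.spec_dense hv.ne hv.gen hdim hv.dim (by omega) hsp
          hG h0, hsp G hG⟩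
      have h1 := (trdeg_image hv.ne hv.gen hv.dim hiff).2
      rw [hgen, IntermediateField.topEquiv.trdeg_eq, hdim] at h1
      have h2 : w1 = w := by exact_mod_cast h1
      omega
    have h1 := curve_low hR hE (Q := Q) (fun e => e.2.1) hQd hgg (fun z e =>
      (hev _ e.2.1).1 ((hrel' _ e.2.1).1 e.2.2) z) (fun z => (isPt_iff _).2 (hI z)) hnc z
    exact (isPt_iff _).1 h1
  · -- linear subspaces
    have h1 := concl_of_entire hm hN ha hsb hFi hrel'
    have hlin : IsLinear ℂ y1 := by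
      rcases Nat.lt_or_ge n ((w1 + 1) * m) with h2 | h2
      · exact h1.2 h2
      · obtain ⟨e, he, -, hL⟩ := h1.1
        exact hB K1 w1 y1 hsv hw h2 ⟨e, he, hL⟩
    have hd0 : Algebra.trdeg ℂ K1 ≠ (0 : ℕ) := by
      rw [hdim]
      intro h
      have h2 : w1 = 0 := by exact_mod_cast h
      omega
    refine (isPt_iff _).1 (lines hR hy0 hgen hd0 hlin (fun x hx => ?_) ?_)
    · rw [isPtP_span _ hF]
      intro i
      have h2 := hx.2 _ (hF i) (hyF i)
      unfold Pool.Agent.W602.GT.val at h2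
      rw [MvPolynomial.aeval_eq_eval] at h2
      exact h2
    · exact ⟨(f z).rep_nonzero, fun G hG h0 => (hev G hG).1 ((hrel' G hG).1 h0) z⟩

/-- **Entire curves, tori and algebraic curves of genus at most one.** -/
theorem main (hm : 2 ≤ m) (hN : 4 * n + (n + 1) ^ 2 < 2 * (N + 1))
    {a : Fin (N + 1) → ℂ} (ha : Function.Injective a) {F : ι → MvPolynomial (Fin (N + 1)) ℂ}
    (hF : ∀ e, IsForm (F e)) (hV : Cone F ⊆ PowVal a n m) (hB : NoBig a n m F)
    (I' : Ideal (MvPolynomial (Fin (N + 1)) ℂ)) :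
    [EntireIn (Ideal.span (Set.range F)) I', TorusMapsIn (Ideal.span (Set.range F)) I',
      RatCurvesIn (RingHom.id ℂ) (Ideal.span (Set.range F)) I' ∧
        EllIn (RingHom.id ℂ) (Ideal.span (Set.range F)) I'].TFAE := by
  tfae_have 1 → 2 := fun h _ _ _ f hf _ _ hI hnc => h f hf hI hnc
  tfae_have 2 → 3 := fun h => alg_of_tori h
  tfae_have 3 → 1 := fun h => entire_of_alg hm hN ha hF hV hB h.1 h.2
  tfae_finish

end Pool.Agent.U742.ET
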